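import Pool.Agent.H38.PS.Targets2
import Pool.Agent.H72.PS.LPC

/-! LPC2: for a given exponent there are few large primes of one entry. -/

set_option autoImplicit false

open Pool.Agent.H38.RB Pool.Agent.H38.PS
open Pool.Agent.H72.PS (factorial_le_pd fact_le)

namespace Pool.Agent.H19.PS

lemma tp_dvd (S : Finset ℕ) (m : ℕ) (hm : m ≠ 0) : tp S m ∣ m := by
  have h1 : tp S m = ∏ p ∈ S.filter (fun p => p ∈ m.primeFactors), p ^ m.factorization p := by
    unfold tp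
    rw [Finset.prod_filter]
    refine Finset.prod_congr rfl fun p hp => ?_
    split_ifs with h
    · rfl
    · have : m.factorization p = 0 := by
        rw [← Finsupp.notMem_support_iff, Nat.support_factorization]
        exact h
      rw [this, pow_zero]
  rw [h1]
  conv_rhs => rw [← Nat.prod_factorization_pow_eq_self hm]
  rw [Finsupp.prod, Nat.support_factorization]
  refine Finset.prod_dvd_prod_of_subset _ _ _ fun p hp => ?_
  exact (Finset.mem_filter.1 hp).2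

lemma tp_primeFactors (S : Finset ℕ) (m : ℕ) (hS : ∀ q ∈ S, q.Prime) :
    (tp S m).primeFactors ⊆ S := by
  intro q hq
  have hqp := Nat.prime_of_mem_primeFactors hq
  have hd := Nat.dvd_of_mem_primeFactors hq
  unfold tp at hd
  obtain ⟨p, hp, hpd⟩ := (Prime.dvd_finsetProd_iff hqp.prime _).1 hd
  have h1 := hqp.dvd_of_dvd_pow hpd
  rw [(Nat.prime_dvd_prime_iff_eq hqp (hS p hp)).1 h1]
  exact hp

lemma tp_ne (S : Finset ℕ) (m : ℕ) (hS : ∀ q ∈ S, q.Prime) : tp S m ≠ 0 := by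
  unfold tp
  exact Finset.prod_ne_zero_iff.2 fun p hp => pow_ne_zero _ (hS p hp).ne_zero

/-- the data of one prime -/
lemma core2 (K : ℕ) (hK : 0 < K) (G : Finset ℕ) (S : Finset ℕ) (hS : ∀ q ∈ S, q.Prime)
    (h δ : ℝ) (hh : 0 < h) (hδ : 0 < δ) (hKδ : 2 / δ ≤ K) (n p H : ℕ)
    (hcls : ∀ a : ℕ, a ≠ 0 → a.primeFactors ⊆ S → Real.log a ≤ 2 * h →
      ∃ g ∈ G, g ∣ a ∧ Real.log a - h / K ≤ Real.log g)
    (hp : p.Prime) (a b c : ℤ) (ha : a ≠ 0) (hb : b ≠ 0) (hc : c ≠ 0)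
    (hab : IsCoprime a b) (hsum : a + b + c = 0)
    (hcS : c.natAbs.primeFactors ⊆ S) (hbS : b.natAbs.primeFactors ⊆ insert p S)
    (hfac : b.natAbs.factorization p = n)
    (haH : a.natAbs ≤ H) (hbH : b.natAbs ≤ H) (hcH : c.natAbs ≤ H)
    (hδH : δ * Real.log H ≤ Real.log (tp S a.natAbs))
    (hH1 : h ≤ Real.log H) (hH2 : Real.log H ≤ 2 * h) :
    ∃ (σ : ℤ) (g V W : ℕ), (σ = 1 ∨ σ = -1) ∧ g ∈ G ∧ g ≠ 0 ∧ g.primeFactors ⊆ S ∧ V ≠ 0 ∧
      W ≠ 0 ∧ V.primeFactors ⊆ S ∧ W.primeFactors ⊆ S ∧ W.Coprime g ∧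
      (∀ q, V.factorization q ≤ ⌊3 * h⌋₊) ∧ (∀ q, W.factorization q ≤ ⌊3 * h⌋₊) ∧
      (g : ℤ) ∣ (W : ℤ) * (p : ℤ) ^ n - σ * (V : ℤ) ∧ Real.exp (δ / 2 * h) ≤ (g : ℝ) ∧
      (n : ℝ) ≤ 3 * h := by
  have ha' : a.natAbs ≠ 0 := Int.natAbs_ne_zero.mpr ha
  have hb' : b.natAbs ≠ 0 := Int.natAbs_ne_zero.mpr hb
  have hc' : c.natAbs ≠ 0 := Int.natAbs_ne_zero.mpr hc
  have hcopab : Nat.Coprime a.natAbs b.natAbs := Int.isCoprime_iff_gcd_eq_one.mp hab
  have htp0 := tp_ne S a.natAbs hS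
  have htpa := tp_dvd S a.natAbs ha'
  have htpS := tp_primeFactors S a.natAbs hS
  -- the divisor g
  have hlogtp : Real.log (tp S a.natAbs : ℝ) ≤ Real.log H := by
    apply Real.log_le_log
    · exact_mod_cast Nat.pos_of_ne_zero htp0
    · exact_mod_cast (Nat.le_of_dvd (Nat.pos_of_ne_zero ha') htpa).trans haH
  obtain ⟨g, hgG, hgt, hglog⟩ := hcls (tp S a.natAbs) htp0 htpS (hlogtp.trans hH2)
  have hga : g ∣ a.natAbs := hgt.trans htpa
  have hg0 : g ≠ 0 := fun h0 => by rw [h0, zero_dvd_iff] at hgt; exact htp0 hgt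
  have hgS : g.primeFactors ⊆ S := (Nat.primeFactors_mono hgt htp0).trans htpS
  -- W
  set W : ℕ := b.natAbs / p ^ n with hWdef
  have hpn : p ^ n ∣ b.natAbs := by rw [← hfac]; exact Nat.ordProj_dvd _ _
  have hWmul : W * p ^ n = b.natAbs := Nat.div_mul_cancel hpn
  have hW0 : W ≠ 0 := by
    intro h0
    rw [h0, zero_mul] at hWmul
    exact hb' hWmul.symm
  have hWb : W ∣ b.natAbs := ⟨p ^ n, hWmul.symm⟩
  have hpW : ¬ p ∣ W := by
    rw [hWdef, ← hfac]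
    exact Nat.not_dvd_ordCompl hp hb'
  have hSW : W.primeFactors ⊆ S := by
    intro q hq
    have hq1 := hbS (Nat.primeFactors_mono hWb hb' hq)
    rcases Finset.mem_insert.1 hq1 with h1 | h1
    · exact absurd (h1 ▸ Nat.dvd_of_mem_primeFactors hq) hpW
    · exact h1
  have hWg : W.Coprime g := Nat.Coprime.coprime_dvd_left hWb
    (Nat.Coprime.coprime_dvd_right hga hcopab.symm)
  have hWH : W ≤ H := (Nat.le_of_dvd (Nat.pos_of_ne_zero hb') hWb).trans hbH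
  -- sizes
  have hgsize : Real.exp (δ / 2 * h) ≤ (g : ℝ) := by
    have hgpos : (0 : ℝ) < (g : ℝ) := by exact_mod_cast Nat.pos_of_ne_zero hg0
    have hK' : (0 : ℝ) < K := by exact_mod_cast hK
    have h1 : h / K ≤ δ * h / 2 := by
      rw [div_le_iff₀ hδ] at hKδ
      rw [div_le_iff₀ hK']
      nlinarith
    have h2 : δ * h ≤ δ * Real.log H := mul_le_mul_of_nonneg_left hH1 hδ.le
    have h3 : δ / 2 * h ≤ Real.log g := by linarith
    have h4 := Real.exp_le_exp.mpr h3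
    rwa [Real.exp_log hgpos] at h4
  have hnle : (n : ℝ) ≤ 3 * h := by
    rw [← hfac]
    exact fact_le _ _ H h hb' hbH hH2 hh
  -- the congruence
  have hdiv : (g : ℤ) ∣ b + c := by
    have h1 : (g : ℤ) ∣ a := Int.natCast_dvd.mpr hga
    have h2 : b + c = -a := by linarith
    rw [h2]
    exact (dvd_neg).mpr h1
  have hbW : (b.natAbs : ℤ) = (W : ℤ) * (p : ℤ) ^ n := by rw [← hWmul]; push_cast; ring
  have hbs : b = b.sign * ((W : ℤ) * (p : ℤ) ^ n) := by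
    rw [← hbW]; exact (Int.sign_mul_natAbs b).symm
  have hcs : c = c.sign * (c.natAbs : ℤ) := (Int.sign_mul_natAbs c).symm
  have hsb : b.sign * b.sign = 1 := by
    rcases lt_or_gt_of_ne hb with h1 | h1
    · rw [Int.sign_eq_neg_one_of_neg h1]; norm_num
    · rw [Int.sign_eq_one_of_pos h1]; norm_num
  refine ⟨-(c.sign * b.sign), g, c.natAbs, W, ?_, hgG, hg0, hgS, hc', hW0, hcS, hSW, hWg,
    fun q => Nat.le_floor (fact_le _ q H h hc' hcH hH2 hh),
    fun q => Nat.le_floor (fact_le _ q H h hW0 hWH hH2 hh), ?_, hgsize, hnle⟩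
  · rcases lt_or_gt_of_ne hb with h1 | h1 <;> rcases lt_or_gt_of_ne hc with h2 | h2
    · rw [Int.sign_eq_neg_one_of_neg h1, Int.sign_eq_neg_one_of_neg h2]; norm_num
    · rw [Int.sign_eq_neg_one_of_neg h1, Int.sign_eq_one_of_pos h2]; norm_num
    · rw [Int.sign_eq_one_of_pos h1, Int.sign_eq_neg_one_of_neg h2]; norm_num
    · rw [Int.sign_eq_one_of_pos h1, Int.sign_eq_one_of_pos h2]; norm_num
  · have h2 : b.sign * b = b.sign * (b.sign * ((W : ℤ) * (p : ℤ) ^ n)) :=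
      congrArg (fun z => b.sign * z) hbs
    have h3 : b.sign * (b.sign * ((W : ℤ) * (p : ℤ) ^ n)) = (W : ℤ) * (p : ℤ) ^ n := by
      rw [← mul_assoc, hsb, one_mul]
    have h4 : b.sign * c = c.sign * b.sign * (c.natAbs : ℤ) := by
      calc b.sign * c = b.sign * (c.sign * (c.natAbs : ℤ)) := congrArg (fun z => b.sign * z) hcs
        _ = c.sign * b.sign * (c.natAbs : ℤ) := by ring
    have h1 : (W : ℤ) * (p : ℤ) ^ n - -(c.sign * b.sign) * (c.natAbs : ℤ) =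
        b.sign * (b + c) := by
      rw [mul_add, h4, h2, h3]; ring
    rw [h1]
    exact Dvd.dvd.mul_left hdiv _

lemma data2 (K : ℕ) (hK : 0 < K) (G : Finset ℕ) (S : Finset ℕ) (hS : ∀ q ∈ S, q.Prime)
    (X h δ : ℝ) (hh : 0 < h) (hδ : 0 < δ) (hKδ : 2 / δ ≤ K) (n : ℕ)
    (hcls : ∀ a : ℕ, a ≠ 0 → a.primeFactors ⊆ S → Real.log a ≤ 2 * h →
      ∃ g ∈ G, g ∣ a ∧ Real.log a - h / K ≤ Real.log g)
    (p : ℕ) (hpf : p ∈ fam2 X δ S n h) :
    ∃ (σ : ℤ) (g V W : ℕ), (σ = 1 ∨ σ = -1) ∧ g ∈ G ∧ g ≠ 0 ∧ g.primeFactors ⊆ S ∧ V ≠ 0 ∧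
      W ≠ 0 ∧ V.primeFactors ⊆ S ∧ W.primeFactors ⊆ S ∧ W.Coprime g ∧
      (∀ q, V.factorization q ≤ ⌊3 * h⌋₊) ∧ (∀ q, W.factorization q ≤ ⌊3 * h⌋₊) ∧
      (g : ℤ) ∣ (W : ℤ) * (p : ℤ) ^ n - σ * (V : ℤ) ∧ Real.exp (δ / 2 * h) ≤ (g : ℝ) ∧
      (n : ℝ) ≤ 3 * h := by
  obtain ⟨hp, _, _, x, a, b, c, ⟨hx0, hxc, hxs⟩, hab, hac, hbc, hcS, hbS, hfac, hδH, hH1,
    hH2⟩ := hpf
  have hall : ∀ l : Fin 3, (x l).natAbs ≤ ht x := by
    intro l
    fin_cases l
    · exact le_max_left _ _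
    · exact le_trans (le_max_left _ _) (le_max_right _ _)
    · exact le_trans (le_max_right _ _) (le_max_right _ _)
  have perm : ∀ a b c : Fin 3, a ≠ b → a ≠ c → b ≠ c →
      x a + x b + x c = x 0 + x 1 + x 2 := by
    intro a b c h1 h2 h3
    fin_cases a <;> fin_cases b <;> fin_cases c <;>
      first
      | exact absurd rfl h1
      | exact absurd rfl h2
      | exact absurd rfl h3
      | (simp only [Fin.zero_eta, Fin.mk_one, Fin.reduceFinMk]; done)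
      | (simp only [Fin.zero_eta, Fin.mk_one, Fin.reduceFinMk]; ring)
  have hs : x a + x b + x c = 0 := (perm a b c hab hac hbc).trans hxs
  exact core2 K hK G S hS h δ hh hδ hKδ n p (ht x) hcls hp (x a) (x b) (x c) (hx0 a)
    (hx0 b) (hx0 c) (hxc a b hab) hs hcS hbS hfac (hall a) (hall b) (hall c) hδH hH1 hH2

/-- LPC2: for a given exponent there are few such primes. -/
theorem pf_LPC2 (hCLS : T_CLS2) (hPIG : T_PIG) (hNUM : T_NUM2) : T_LPC2 := by
  intro γ δ hγ hδ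
  obtain ⟨K, hKδ⟩ := exists_nat_ge (2 / δ)
  have hK : 0 < K := by
    rcases Nat.eq_zero_or_pos K with h0 | h0
    · rw [h0] at hKδ
      have : 0 < 2 / δ := by positivity
      push_cast at hKδ
      linarith
    · exact h0
  obtain ⟨A, X₀, hA, hX₀, hnum⟩ := hNUM γ (δ / 2) (2 * K + 1) hγ (by positivity)
  refine ⟨A, X₀, hA, hX₀, ?_⟩
  intro X h S n hX hAX hhX hS hpd hn
  have hX2 : 2 ≤ X := hX₀.trans hX
  have hlogX : 0 < Real.log X := Real.log_pos (by linarith)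
  have hh : 0 < h := lt_of_lt_of_le (by nlinarith) hAX
  have hfin : (fam2 X δ S n h).Finite := by
    apply (Set.finite_Iic ⌊X⌋₊).subset
    intro p hp
    exact Nat.le_floor hp.2.2.1
  refine ⟨hfin, ?_⟩
  by_contra hcon
  push Not at hcon
  obtain ⟨G, hGcard, hcls⟩ := hCLS K S h hK hS hh
  have hdata := fun p (hp : p ∈ fam2 X δ S n h) =>
    data2 K hK G S hS X h δ hh hδ hKδ n hcls p hp
  choose! σ g V W hσ hgG hg0 hgS hV hW hVS hWS hWg hVf hWf hdiv hgs hnn using hdata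
  set F : Finset ℕ := hfin.toFinset with hF
  have hmemF : ∀ p, p ∈ F ↔ p ∈ fam2 X δ S n h := fun p => hfin.mem_toFinset
  have hcardF : F.card = (fam2 X δ S n h).ncard := (Set.ncard_eq_toFinset_card _ hfin).symm
  rw [← hcardF] at hcon
  have hFpos : 0 < F.card := by
    have h1 : (0 : ℝ) < (F.card : ℝ) := lt_trans (Real.rpow_pos_of_pos (by linarith) _) hcon
    exact_mod_cast h1
  obtain ⟨p₁, hp₁⟩ := Finset.card_pos.mp hFpos
  let cl : ℕ → ℤ × ℕ := fun p => (σ p, g p)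
  have hne : (F.image cl).Nonempty := ⟨cl p₁, Finset.mem_image_of_mem _ hp₁⟩
  obtain ⟨b, hb, hbmax⟩ := Finset.exists_max_image (F.image cl)
    (fun b => (F.filter (fun p => cl p = b)).card) hne
  set P : Finset ℕ := F.filter (fun p => cl p = b) with hPdef
  have h1 : F.card ≤ P.card * (F.image cl).card :=
    Finset.card_le_mul_card_image F P.card (fun b' hb' => hbmax b' hb')
  have h2 : (F.image cl).card ≤ 2 * 2 ^ ((2 * K + 1) * S.card) := by
    have hsub : F.image cl ⊆ ({1, -1} : Finset ℤ) ×ˢ G := by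
      intro c hc
      obtain ⟨p, hp, rfl⟩ := Finset.mem_image.mp hc
      have hp' := (hmemF p).mp hp
      rw [Finset.mem_product]
      refine ⟨?_, hgG p hp'⟩
      rw [Finset.mem_insert, Finset.mem_singleton]
      exact hσ p hp'
    have h3 := Finset.card_le_card hsub
    rw [Finset.card_product] at h3
    have h4 : ({1, -1} : Finset ℤ).card = 2 := by decide
    rw [h4] at h3
    exact h3.trans (Nat.mul_le_mul_left 2 hGcard)
  obtain ⟨p₀, hp₀F, hp₀⟩ := Finset.mem_image.mp hb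
  have hp₀' := (hmemF p₀).mp hp₀F
  have hkX : ((S.card.factorial : ℕ) : ℝ) ≤ X :=
    le_trans (by exact_mod_cast factorial_le_pd S hS) hpd
  have hN : X ^ γ ≤ (P.card : ℝ) * (12 * 2 ^ ((2 * K + 1) * S.card)) := by
    have h5 : F.card ≤ P.card * (2 * 2 ^ ((2 * K + 1) * S.card)) :=
      h1.trans (Nat.mul_le_mul_left _ h2)
    have h6 : (F.card : ℝ) ≤ (P.card : ℝ) * (2 * 2 ^ ((2 * K + 1) * S.card)) := by
      exact_mod_cast h5
    have h7 : (P.card : ℝ) * (2 * 2 ^ ((2 * K + 1) * S.card)) ≤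
        (P.card : ℝ) * (12 * 2 ^ ((2 * K + 1) * S.card)) := by
      apply mul_le_mul_of_nonneg_left _ (Nat.cast_nonneg _)
      have : (0 : ℝ) < 2 ^ ((2 * K + 1) * S.card) := by positivity
      linarith
    linarith
  obtain ⟨r, hr1, hr2⟩ := hnum X h S.card P.card hX hAX hhX hkX hN
  have hPmem : ∀ p ∈ P, p ∈ fam2 X δ S n h ∧ σ p = b.1 ∧ g p = b.2 := by
    intro p hp
    rw [hPdef, Finset.mem_filter] at hp
    refine ⟨(hmemF p).mp hp.1, ?_, ?_⟩
    · exact congrArg Prod.fst hp.2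
    · exact congrArg Prod.snd hp.2
  have hb1 : σ p₀ = b.1 := congrArg Prod.fst hp₀
  have hb2 : g p₀ = b.2 := congrArg Prod.snd hp₀
  have hcount : 2 * pd S * (2 * r * ⌊3 * h⌋₊ + 1) ^ S.card < P.card.choose r := by
    have h5 : ((2 * pd S * (2 * r * ⌊3 * h⌋₊ + 1) ^ S.card : ℕ) : ℝ) <
        ((P.card.choose r : ℕ) : ℝ) := by
      refine lt_of_le_of_lt ?_ hr1
      push_cast
      apply mul_le_mul_of_nonneg_right _ (by positivity)
      linarith
    exact_mod_cast h5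
  have hfinal := hPIG S P V W b.2 n r ⌊3 * h⌋₊ b.1 X hS
    (fun p hp => ⟨(hPmem p hp).1.1, (hPmem p hp).1.2.1, (hPmem p hp).1.2.2.1⟩)
    (hb2 ▸ hg0 p₀ hp₀') (hb2 ▸ hgS p₀ hp₀') hn (hb1 ▸ hσ p₀ hp₀')
    (fun p hp => by
      obtain ⟨hpf, e1, e2⟩ := hPmem p hp
      exact ⟨hV p hpf, hW p hpf, hVS p hpf, hWS p hpf, e2 ▸ hWg p hpf, hVf p hpf, hWf p hpf⟩)
    (fun p hp => by
      obtain ⟨hpf, e1, e2⟩ := hPmem p hp
      have := hdiv p hpf
      rw [e1, e2] at this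
      exact this)
    hcount
  have h8 := hr2 n (hnn p₀ hp₀')
  have h9 := hgs p₀ hp₀'
  rw [hb2] at h9
  linarith

end Pool.Agent.H19.PS
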