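import Pool.Agent.H38.PS.Targets2
import Pool.Agent.H86.RB.SMO

/-! REM2: removal of a set of primes of small weight. -/

set_option autoImplicit false

open Pool.Agent.H38.RB Pool.Agent.H38.PS

namespace Pool.Agent.H19.PS

theorem pf_REM2 : T_REM2 := by
  intro δ x hx E hE hlog
  have hH2 : (2 : ℝ) ≤ ht x := by exact_mod_cast smo_ht_two hx
  have hm := del_pr_ne hx
  have hE' : ∀ p ∈ E, p.Prime := fun p hp => Nat.prime_of_mem_primeFactors (hE hp)
  refine ⟨hx, ?_⟩
  have h1 : (pr x : ℝ) = (tp E (pr x) : ℝ) * (tp ((pr x).primeFactors \ E) (pr x) : ℝ) := by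
    have h : pr x = tp E (pr x) * tp ((pr x).primeFactors \ E) (pr x) := by
      have h0 : pr x = ∏ p ∈ (pr x).primeFactors, p ^ (pr x).factorization p :=
        (Nat.prod_factorization_pow_eq_self hm).symm
      conv_lhs => rw [h0]
      unfold tp
      rw [mul_comm]
      exact (Finset.prod_sdiff hE).symm
    exact_mod_cast h
  have h2 : (tp E (pr x) : ℝ) ≤ (ht x : ℝ) ^ (1 - δ) := by
    rw [← Real.log_le_log_iff (smo_tp_pos E hE' _) (Real.rpow_pos_of_pos (by linarith) _),
      Real.log_rpow (by linarith)]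
    exact hlog
  calc (pr x : ℝ) = (tp E (pr x) : ℝ) * (tp ((pr x).primeFactors \ E) (pr x) : ℝ) := h1
    _ ≤ (ht x : ℝ) ^ (1 - δ) * (tp ((pr x).primeFactors \ E) (pr x) : ℝ) :=
        mul_le_mul_of_nonneg_right h2 (Nat.cast_nonneg _)

end Pool.Agent.H19.PS
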